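import Pool.Agent.H76.Fab3

namespace Pool.Agent.Results.MP_fabcd1_nt.NotPeriodic
open Polynomial Pool.Agent.H76.Fab

open Classical in
/-- `p_S(a,m,n)`: partitions of `n` with all parts in `S` whose number of parts is `≡ a (mod m)`
(for `0 ≤ a ≤ m-1`). -/
noncomputable def pS (S : Set ℕ) (a m n : ℕ) : ℕ :=
  (Finset.univ.filter fun l : n.Partition => (∀ x ∈ l.parts, x ∈ S) ∧ l.parts.card % m = a).card

/-- The list `0,…,m-1` sorted by decreasing value of `p`, equal values with the smaller index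
first. -/
def sortBy (p : ℕ → ℕ) (m : ℕ) : List ℕ :=
  (List.range m).insertionSort (fun i j => p j < p i ∨ (p i = p j ∧ i ≤ j))

/-- The permutation `u_n`, as a list. -/
noncomputable def u (S : Set ℕ) (m n : ℕ) : List ℕ := sortBy (fun a => pS S a m n) m

/-- `S_f = {f(k) : k ≥ 1}`. -/
def Sf (f : ℤ[X]) : Set ℕ := {x | ∃ k : ℤ, 1 ≤ k ∧ (x : ℤ) = f.eval k}

lemma head (p : ℕ → ℕ) : ((sortBy p 3).headI = 0 ∧ p 1 ≤ p 0 ∧ p 2 ≤ p 0) ∨
    ((sortBy p 3).headI = 1 ∧ p 0 ≤ p 1 ∧ p 2 ≤ p 1) ∨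
    ((sortBy p 3).headI = 2 ∧ p 0 ≤ p 2 ∧ p 1 ≤ p 2) := by
  have : List.range 3 = [0, 1, 2] := rfl
  simp only [sortBy, this, List.insertionSort_cons, List.insertionSort_nil, List.orderedInsert_nil,
    List.orderedInsert_cons]
  split_ifs with h1
  · simp only [List.orderedInsert_cons]; split_ifs <;> simp <;> omega
  · simp only [List.orderedInsert_cons]; split_ifs <;> simp <;> omega

lemma key (a b d : ℝ) (h1 : b ≤ a) (h2 : d ≤ a) :
    ‖(a : ℂ) + b * om + d * om ^ 2‖ ≤ 2 * ((a : ℂ) + b * om + d * om ^ 2).re := by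
  rw [om2]
  have e : ((a : ℂ) + b * om + d * ⟨-1 / 2, -√3 / 2⟩).re = a - b / 2 - d / 2 := by simp [om]; ring
  have e' : ((a : ℂ) + b * om + d * ⟨-1 / 2, -√3 / 2⟩).im = √3 * (b - d) / 2 := by simp [om]; ring
  refine (sq_le_sq₀ (norm_nonneg _) (by rw [e]; linarith)).mp ?_
  rw [Complex.sq_norm, Complex.normSq_apply, e, e']
  have : √3 * (b - d) / 2 * (√3 * (b - d) / 2) = 3 * (b - d) ^ 2 / 4 := by
    linear_combination (b - d) ^ 2 / 4 * s3
  rw [this]
  nlinarith [mul_nonneg (sub_nonneg.mpr h1) (sub_nonneg.mpr h2)]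

lemma memS (x : ℕ) : x ∈ Sf (C 2 * X - 1) ↔ Odd x := by
  simp only [Sf, Set.mem_setOf_eq, eval_sub, eval_mul, eval_C, eval_X, eval_one]
  constructor
  · rintro ⟨k, h1, h2⟩; exact ⟨(k - 1).toNat, by omega⟩
  · rintro ⟨k, rfl⟩; exact ⟨k + 1, by omega, by push_cast; ring⟩

lemma c_eq (n : ℕ) : c om n = (pS (Sf (C 2 * X - 1)) 0 3 n : ℝ) +
    (pS (Sf (C 2 * X - 1)) 1 3 n : ℝ) * om + (pS (Sf (C 2 * X - 1)) 2 3 n : ℝ) * om ^ 2 := by
  classical
  simp only [c, Nat.Partition.coeff_genFun, pS, memS, Finset.card_filter]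
  push_cast
  rw [Finset.sum_mul, Finset.sum_mul, ← Finset.sum_add_distrib, ← Finset.sum_add_distrib]
  refine Finset.sum_congr rfl fun l _ => ?_
  have e : l.parts.toFinsupp.prod (ff om) = (l.parts.map (z om)).prod := by
    rw [Finset.prod_multiset_map_count]; simp [Finsupp.prod, ff]
  rw [e]
  by_cases h : ∀ x ∈ l.parts, Odd x
  · have e2 : (l.parts.map (z om)).prod = om ^ (l.parts.card % 3) := by
      rw [Multiset.map_congr rfl (g := fun _ => om) (fun x hx => by simp [z, h x hx])]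
      simp only [Multiset.map_const', Multiset.prod_replicate]
      conv_lhs => rw [← Nat.mod_add_div l.parts.card 3, pow_add, pow_mul, om3, one_pow, mul_one]
    rw [e2]
    have hj : l.parts.card % 3 < 3 := Nat.mod_lt _ (by norm_num)
    generalize l.parts.card % 3 = r at hj
    interval_cases r <;> simp [eq_true h]
  · have e2 : (l.parts.map (z om)).prod = 0 := by
      push Not at h
      obtain ⟨x, hx, hx'⟩ := h
      exact Multiset.prod_eq_zero (Multiset.mem_map.mpr ⟨x, hx, by simp [z, hx']⟩)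
    rw [e2]; simp [eq_false h]

theorem result : ∃ f : ℤ[X], f = C 2 * X - 1 ∧ (∀ k : ℤ, 1 ≤ k → 0 < f.eval k) ∧
    (∀ k l : ℤ, k < l → f.eval k < f.eval l) ∧
    (∀ p : ℕ, p.Prime → ∃ x : ℤ, ¬ (p : ℤ) ∣ f.eval x) ∧
    ¬ ∃ T N : ℕ, 0 < T ∧ ∀ n, N ≤ n → u (Sf f) 3 (n + T) = u (Sf f) 3 n := by
  refine ⟨_, rfl, fun k hk => by simp; omega, fun k l h => by simp; omega, fun p hp => ⟨1, ?_⟩, ?_⟩
  · have e : (C 2 * X - 1 : ℤ[X]).eval 1 = 1 := by simp
    rw [e]; intro h
    exact hp.one_lt.ne' (by exact_mod_cast Int.eq_one_of_dvd_one (by positivity) h)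
  rintro ⟨T, N, hT, hp⟩
  set S := Sf (C 2 * X - 1) with hS
  have hper : ∀ n, N ≤ n → ∀ m, u S 3 (n + m * T) = u S 3 n := fun n hn m => by
    induction m with
    | zero => simp
    | succ m ih => rw [add_mul, one_mul, ← add_assoc, hp _ (by omega), ih]
  refine main (fun n => om ^ (3 - (u S 3 (n + N * T)).headI)) T N hT (fun n => ?_)
    (fun n => by rw [norm_pow, nom, one_pow]) (fun n hn => ?_)
  · have : N ≤ n + N * T := le_add_left (Nat.le_mul_of_pos_right N hT)
    simp only [add_right_comm n T, hp _ this]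
  · simp only [hper n hn]
    have e : ‖c om n‖ = ‖c om n * om ^ (3 - (u S 3 n).headI)‖ := by
      rw [norm_mul, norm_pow, nom, one_pow, mul_one]
    rw [e, c_eq, ← hS]
    rcases head (fun a => pS S a 3 n) with ⟨h0, h1, h2⟩ | ⟨h0, h1, h2⟩ | ⟨h0, h1, h2⟩
    · have := key (pS S 0 3 n) (pS S 1 3 n) (pS S 2 3 n) (by exact_mod_cast h1) (by exact_mod_cast h2)
      rw [u, h0, Nat.sub_zero, om3, mul_one]; exact this
    · have := key (pS S 1 3 n) (pS S 2 3 n) (pS S 0 3 n) (by exact_mod_cast h2) (by exact_mod_cast h1)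
      have e3 : ∀ a b d : ℂ, (a + b * om + d * om ^ 2) * om ^ (3 - 1) = b + d * om + a * om ^ 2 :=
        fun a b d => by linear_combination (b + d * om) * om3
      rw [u, h0, e3]; exact this
    · have := key (pS S 2 3 n) (pS S 0 3 n) (pS S 1 3 n) (by exact_mod_cast h1) (by exact_mod_cast h2)
      have e3 : ∀ a b d : ℂ, (a + b * om + d * om ^ 2) * om ^ (3 - 2) = d + a * om + b * om ^ 2 :=
        fun a b d => by linear_combination d * om3
      rw [u, h0, e3]; exact this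

end Pool.Agent.Results.MP_fabcd1_nt.NotPeriodic
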